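import Pool.Agent.X221.Chord.Graph

/-!
# The 4-term relation
-/

namespace Pool.Agent.X221.Chord

open Finset Polynomial

/-- `G'_{ab}`: toggle the adjacency of `a` and `b`. -/
def toggle {n : ℕ} (G : SimpleGraph (Fin n)) (a b : Fin n) : SimpleGraph (Fin n) where
  Adj u v := u ≠ v ∧ Xor (G.Adj u v) ((u = a ∧ v = b) ∨ (u = b ∧ v = a))
  symm := by
    constructor
    rintro u v ⟨h1, h2⟩
    refine ⟨h1.symm, ?_⟩
    rw [G.adj_comm]
    have : ((v = a ∧ u = b) ∨ (v = b ∧ u = a)) ↔ ((u = a ∧ v = b) ∨ (u = b ∧ v = a)) := by tauto
    rw [this]; exact h2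
  loopless := ⟨fun u h => h.1 rfl⟩

/-- `G̃_{ab}`: toggle the adjacency of `a` with every vertex `v ≠ a` adjacent to `b`. -/
def slide {n : ℕ} (G : SimpleGraph (Fin n)) (a b : Fin n) : SimpleGraph (Fin n) where
  Adj u v := u ≠ v ∧ Xor (G.Adj u v) ((u = a ∧ G.Adj b v) ∨ (v = a ∧ G.Adj b u))
  symm := by
    constructor
    rintro u v ⟨h1, h2⟩
    refine ⟨h1.symm, ?_⟩
    rw [G.adj_comm]
    have : ((v = a ∧ G.Adj b u) ∨ (u = a ∧ G.Adj b v)) ↔
        ((u = a ∧ G.Adj b v) ∨ (v = a ∧ G.Adj b u)) := by tauto
    rw [this]; exact h2
  loopless := ⟨fun u h => h.1 rfl⟩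

section

variable {n : ℕ} {L : Type} [DecidableEq L]

open scoped Classical in
/-- the factor of a pair of vertices -/
noncomputable def fac (G : SimpleGraph (Fin n)) (i : Fin n × Bool → L) (x y : Fin n) : ℂ :=
  if G.Adj x y then eps i x y else 1

lemma wt_def (G : SimpleGraph (Fin n)) (i : Fin n × Bool → L) [Decidable (Proper i)] :
    wt G i = if Proper i then PP (fac G i) else 0 := by
  unfold wt fac
  split_ifs <;> rfl

lemma wt_toggle (G : SimpleGraph (Fin n)) {a b : Fin n} (hab : a ≠ b) (i : Fin n × Bool → L) :
    wt (toggle G a b) i = eps i a b * wt G i := by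
  classical
  rw [wt_def, wt_def]
  split_ifs with h
  swap
  · simp
  have h1 : PP (fac (toggle G a b) i) = PP (fun x y => fac G i x y *
      (if x = a then (if y = b then eps i a b else 1) else
        if y = a then (if x = b then eps i a b else 1) else 1)) := by
    refine PP_congr fun x y hxy => ?_
    have hxy' : x ≠ y := ne_of_lt hxy
    unfold fac
    have hadj : (toggle G a b).Adj x y ↔
        Xor (G.Adj x y) ((x = a ∧ y = b) ∨ (x = b ∧ y = a)) := by
      simp [toggle, hxy']
    have hsq := eps_sq i a b
    have hsymm := eps_symm i a b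
    by_cases hx : x = a
    · subst hx
      by_cases hy : y = b
      · subst hy
        have : (toggle G x y).Adj x y ↔ ¬ G.Adj x y := by
          rw [hadj]; simp [Xor]
        by_cases hG : G.Adj x y
        · simp only [this, hG]; simp [hsq]
        · simp only [this, hG]; simp
      · have : (toggle G x b).Adj x y ↔ G.Adj x y := by
          rw [hadj]; simp [Xor, hy, hab]
        simp only [this]; simp [hy]
    · by_cases hy : y = a
      · subst hy
        by_cases hx' : x = b
        · subst hx'
          have : (toggle G y x).Adj x y ↔ ¬ G.Adj x y := by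
            rw [hadj]; simp [Xor]
          by_cases hG : G.Adj x y
          · simp only [this, hG, hx]; simp [hsymm, eps_sq i x y]
          · simp only [this, hG, hx]; simp [hsymm]
        · have : (toggle G y b).Adj x y ↔ G.Adj x y := by
            rw [hadj]; simp [Xor, hx, hx']
          simp only [this, hx]; simp [hx']
      · have : (toggle G a b).Adj x y ↔ G.Adj x y := by
          rw [hadj]; simp [Xor, hx, hy]
        simp only [this, hx, hy]; simp
  rw [h1, PP_mul, PP_star a (fun v => if v = b then eps i a b else 1)]
  have h2 : ∏ v, (if v = a then (1 : ℂ) else if v = b then eps i a b else 1) = eps i a b := by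
    rw [prod_eq_single b]
    · simp [hab.symm]
    · intro v _ hv; simp [hv]
    · intro h; exact absurd (mem_univ _) h
  rw [h2, mul_comm]

/-- The involution on colourings: exchange the two colours of `a` in the colours of `b`. -/
def invo (a b : Fin n) (i : Fin n × Bool → L) : Fin n × Bool → L :=
  fun p => if p.1 = b then Equiv.swap (i (a, false)) (i (a, true)) (i p) else i p

lemma invo_invo {a b : Fin n} (hab : a ≠ b) (i : Fin n × Bool → L) :
    invo a b (invo a b i) = i := by
  funext p
  unfold invo
  by_cases hp : p.1 = b
  · simp [hp, hab]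
  · simp [hp]

lemma proper_invo {a b : Fin n} (i : Fin n × Bool → L) :
    Proper (invo a b i) ↔ Proper i := by
  have : ∀ v, (invo a b i (v, false) ≠ invo a b i (v, true)) ↔ (i (v, false) ≠ i (v, true)) := by
    intro v
    unfold invo
    by_cases hv : v = b
    · simp [hv]
    · simp [hv]
  unfold Proper
  exact forall_congr' this

lemma invo_ne {a b : Fin n} (i : Fin n × Bool → L) {v : Fin n} (hv : v ≠ b) (s : Bool) :
    invo a b i (v, s) = i (v, s) := by simp [invo, hv]

lemma invo_b {a b : Fin n} (i : Fin n × Bool → L) (s : Bool) :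
    invo a b i (b, s) = Equiv.swap (i (a, false)) (i (a, true)) (i (b, s)) := by simp [invo]

lemma eps_invo {a b : Fin n} (hab : a ≠ b) (i : Fin n × Bool → L) :
    eps (invo a b i) a b = eps i a b := by
  unfold eps
  simp only [Fintype.prod_bool, invo_ne i hab, invo_b]
  have h1 : ∀ z, i (a, false) = Equiv.swap (i (a, false)) (i (a, true)) z ↔ i (a, true) = z := by
    intro z
    rw [← Equiv.swap_apply_eq_iff, Equiv.swap_apply_left]
  have h2 : ∀ z, i (a, true) = Equiv.swap (i (a, false)) (i (a, true)) z ↔ i (a, false) = z := by
    intro z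
    rw [← Equiv.swap_apply_eq_iff, Equiv.swap_apply_right]
  simp only [h1, h2]
  ring

lemma eps_invo_b {a b v : Fin n} (hvb : v ≠ b) (i : Fin n × Bool → L)
    (hp : Proper i) (he : eps i a b = -1) :
    eps (invo a b i) b v = eps i b v * eps i a v := by
  have ha := hp a
  have hb := hp b
  unfold eps at he ⊢
  simp only [Fintype.prod_bool, invo_ne i hvb, invo_b] at he ⊢
  generalize i (a, false) = u at *
  generalize i (a, true) = w at *
  generalize i (b, false) = x at *
  generalize i (b, true) = y at *
  generalize i (v, false) = p at *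
  generalize i (v, true) = q at *
  have sq : ∀ z : L, ((if z = p then (-1 : ℂ) else 1) * (if z = p then (-1 : ℂ) else 1)) = 1 := by
    intro z; split_ifs <;> norm_num
  have sq' : ∀ z : L, ((if z = q then (-1 : ℂ) else 1) * (if z = q then (-1 : ℂ) else 1)) = 1 := by
    intro z; split_ifs <;> norm_num
  by_cases h1 : u = x
  · subst h1
    by_cases h2 : w = y
    · subst h2
      exfalso
      simp [ha, ha.symm] at he
      norm_num at he
    · have h3 : Equiv.swap u w u = w := Equiv.swap_apply_left _ _
      have h4 : Equiv.swap u w y = y := Equiv.swap_apply_of_ne_of_ne hb.symm (Ne.symm h2)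
      rw [h3, h4]
      linear_combination (-(if y = q then (-1 : ℂ) else 1) * (if y = p then (-1 : ℂ) else 1) *
        (if w = q then (-1 : ℂ) else 1) * (if w = p then (-1 : ℂ) else 1)) *
        (sq u * ((if u = q then (-1 : ℂ) else 1) * (if u = q then (-1 : ℂ) else 1)) + sq' u)
  · by_cases h2 : u = y
    · subst h2
      by_cases h3 : w = x
      · subst h3
        exfalso
        simp [ha, ha.symm] at he
        norm_num at he
      · have h4 : Equiv.swap u w u = w := Equiv.swap_apply_left _ _
        have h5 : Equiv.swap u w x = x := Equiv.swap_apply_of_ne_of_ne hb (Ne.symm h3)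
        rw [h4, h5]
        linear_combination (-(if x = q then (-1 : ℂ) else 1) * (if x = p then (-1 : ℂ) else 1) *
          (if w = q then (-1 : ℂ) else 1) * (if w = p then (-1 : ℂ) else 1)) *
          (sq u * ((if u = q then (-1 : ℂ) else 1) * (if u = q then (-1 : ℂ) else 1)) + sq' u)
    · by_cases h3 : w = x
      · subst h3
        have h4 : Equiv.swap u w w = u := Equiv.swap_apply_right _ _
        have h5 : Equiv.swap u w y = y := Equiv.swap_apply_of_ne_of_ne (Ne.symm h2) hb.symm
        rw [h4, h5]
        linear_combination (-(if y = q then (-1 : ℂ) else 1) * (if y = p then (-1 : ℂ) else 1) *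
          (if u = q then (-1 : ℂ) else 1) * (if u = p then (-1 : ℂ) else 1)) *
          (sq w * ((if w = q then (-1 : ℂ) else 1) * (if w = q then (-1 : ℂ) else 1)) + sq' w)
      · by_cases h4 : w = y
        · subst h4
          have h5 : Equiv.swap u w w = u := Equiv.swap_apply_right _ _
          have h6 : Equiv.swap u w x = x := Equiv.swap_apply_of_ne_of_ne (Ne.symm h1) hb
          rw [h5, h6]
          linear_combination (-(if x = q then (-1 : ℂ) else 1) * (if x = p then (-1 : ℂ) else 1) *
            (if u = q then (-1 : ℂ) else 1) * (if u = p then (-1 : ℂ) else 1)) *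
            (sq w * ((if w = q then (-1 : ℂ) else 1) * (if w = q then (-1 : ℂ) else 1)) + sq' w)
        · exfalso
          simp [h1, h2, h3, h4] at he
          norm_num at he

lemma wt_slide (G : SimpleGraph (Fin n)) {a b : Fin n} (hab : a ≠ b) (i : Fin n × Bool → L)
    (he : eps i a b = -1) : wt (slide G a b) i = wt G (invo a b i) := by
  classical
  rw [wt_def, wt_def]
  refine if_ctx_congr (proper_invo i).symm (fun hp => ?_) (fun _ => rfl)
  rw [proper_invo] at hp
  let β : Fin n → ℂ := fun v => if G.Adj b v ∧ v ≠ a then eps i a v else 1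
  have h1 : PP (fac (slide G a b) i) = PP (fun x y => fac G i x y *
      (if x = a then β y else if y = a then β x else 1)) := by
    refine PP_congr fun x y hxy => ?_
    have hxy' : x ≠ y := ne_of_lt hxy
    unfold fac
    have hadj : (slide G a b).Adj x y ↔
        Xor (G.Adj x y) ((x = a ∧ G.Adj b y) ∨ (y = a ∧ G.Adj b x)) := by
      simp [slide, hxy']
    by_cases hx : x = a
    · subst hx
      have hy : y ≠ x := hxy'.symm
      have hsq := eps_sq i x y
      by_cases hb : G.Adj b y
      · have : (slide G x b).Adj x y ↔ ¬ G.Adj x y := by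
          rw [hadj]; simp [Xor, hb]
        by_cases hG : G.Adj x y
        · simp only [this, hG]; simp [β, hb, hy, hsq]
        · simp only [this, hG]; simp [β, hb, hy]
      · have : (slide G x b).Adj x y ↔ G.Adj x y := by
          rw [hadj]; simp [Xor, hb, hy]
        simp only [this]; simp [β, hb]
    · by_cases hy : y = a
      · subst hy
        have hsq := eps_sq i y x
        have hsymm := eps_symm i x y
        by_cases hb : G.Adj b x
        · have : (slide G y b).Adj x y ↔ ¬ G.Adj x y := by
            rw [hadj]; simp [Xor, hb, hx]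
          by_cases hG : G.Adj x y
          · simp only [this, hG, hx]; simp [β, hb, hx, hsq, hsymm]
          · simp only [this, hG, hx]; simp [β, hb, hx, hsymm]
        · have : (slide G y b).Adj x y ↔ G.Adj x y := by
            rw [hadj]; simp [Xor, hb, hx]
          simp only [this, hx]; simp [β, hb]
      · have : (slide G a b).Adj x y ↔ G.Adj x y := by
          rw [hadj]; simp [Xor, hx, hy]
        simp only [this, hx, hy]; simp
  have h2 : PP (fac G (invo a b i)) = PP (fun x y => fac G i x y *
      (if x = b then β y else if y = b then β x else 1)) := by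
    refine PP_congr fun x y hxy => ?_
    have hxy' : x ≠ y := ne_of_lt hxy
    unfold fac
    by_cases hx : x = b
    · subst hx
      have hy : y ≠ x := hxy'.symm
      rw [if_pos rfl]
      by_cases hG : G.Adj x y
      · rw [if_pos hG, if_pos hG]
        by_cases hya : y = a
        · subst hya
          simp only [β, ne_eq, not_true_eq_false, and_false, if_false, mul_one]
          rw [eps_symm, eps_invo hab, eps_symm]
        · simp only [β, hG, hya, ne_eq, not_false_eq_true, and_self, if_true]
          exact eps_invo_b hy i hp he
      · rw [if_neg hG, if_neg hG]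
        simp [β, hG]
    · by_cases hy : y = b
      · subst hy
        rw [if_neg hx, if_pos rfl]
        by_cases hG : G.Adj x y
        · rw [if_pos hG, if_pos hG]
          by_cases hxa : x = a
          · subst hxa
            simp only [β, ne_eq, not_true_eq_false, and_false, if_false, mul_one]
            rw [eps_invo hab]
          · simp only [β, hG.symm, hxa, ne_eq, not_false_eq_true, and_self, if_true]
            rw [eps_symm, eps_invo_b hx i hp he, eps_symm i y x]
        · rw [if_neg hG, if_neg hG]
          have hG' : ¬ G.Adj y x := fun h => hG h.symm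
          simp [β, hG']
      · rw [if_neg hx, if_neg hy, mul_one]
        have : eps (invo a b i) x y = eps i x y := by
          unfold eps
          simp only [invo_ne i hx, invo_ne i hy]
        rw [this]
  rw [h1, h2, PP_mul, PP_mul, PP_star, PP_star]
  congr 1
  refine prod_congr rfl fun v _ => ?_
  have hβa : β a = 1 := by simp [β]
  have hβb : β b = 1 := by simp [β]
  by_cases hva : v = a
  · subst hva; simp [hβa]
  · by_cases hvb : v = b
    · subst hvb; simp [hβb]
    · simp [hva, hvb]

end

/-- The polynomial of a graph satisfies the 4-term relation. -/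
theorem gpoly_four_term {n : ℕ} (G : SimpleGraph (Fin n)) {a b : Fin n} (hab : a ≠ b) :
    gpoly G - gpoly (toggle G a b) = gpoly (slide G a b) - gpoly (toggle (slide G a b) a b) := by
  apply gpoly_ext (n := n)
  intro M hM
  rw [eval_sub, eval_sub, mul_sub, mul_sub, ← gpoly_spec G M hM, ← gpoly_spec _ M hM,
    ← gpoly_spec (slide G a b) M hM, ← gpoly_spec (toggle (slide G a b) a b) M hM]
  simp only [wt_toggle _ hab]
  rw [← sum_sub_distrib, ← sum_sub_distrib]
  let Φ : (Fin n × Bool → Fin M) ≃ (Fin n × Bool → Fin M) :=
    ⟨invo a b, invo a b, invo_invo hab, invo_invo hab⟩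
  rw [← Equiv.sum_comp Φ]
  refine sum_congr rfl fun i _ => ?_
  show wt G (invo a b i) - eps (invo a b i) a b * wt G (invo a b i) = _
  rw [eps_invo hab]
  rcases eps_cases i a b with h | h
  · rw [h]; ring
  · rw [wt_slide G hab i h]

end Pool.Agent.X221.Chord
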