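import Pool.Agent.X221.Chord.Weyl
import Pool.Agent.X221.Chord.FourTerm

/-!
# Doubled words
-/

namespace Pool.Agent.X221.Chord

open Finset Polynomial

variable {n : ℕ}

/-- The order on half-chords. -/
def ordn (p : Fin n × Bool) : ℕ := 2 * p.1.val + p.2.toNat

lemma ordn_injective : Function.Injective (ordn (n := n)) := by
  rintro ⟨a, s⟩ ⟨b, t⟩ h
  simp only [ordn] at h
  have hs : s.toNat < 2 := Bool.toNat_lt s
  have ht : t.toNat < 2 := Bool.toNat_lt t
  have h1 : a.val = b.val := by omega
  have h2 : s.toNat = t.toNat := by omega
  rw [Prod.mk.injEq]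
  refine ⟨Fin.ext h1, ?_⟩
  revert h2
  cases s <;> cases t <;> simp

/-- The doubled word: every end of a chord is replaced by the ends of two half-chords, in the
order given by `σ`. -/
def dbl (σ : Fin n × Bool → Bool) : List (Fin n × Bool) → List ((Fin n × Bool) × Bool)
  | [] => []
  | p :: E => ((p.1, σ p), p.2) :: ((p.1, !σ p), p.2) :: dbl σ E

lemma dbl_append (σ : Fin n × Bool → Bool) (E F : List (Fin n × Bool)) :
    dbl σ (E ++ F) = dbl σ E ++ dbl σ F := by
  induction E with
  | nil => rfl
  | cons p E ih => simp [dbl, ih]

lemma mem_dbl (σ : Fin n × Bool → Bool) (E : List (Fin n × Bool)) (a : Fin n) (s b : Bool) :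
    ((a, s), b) ∈ dbl σ E ↔ (a, b) ∈ E := by
  induction E with
  | nil => simp [dbl]
  | cons p E ih =>
    obtain ⟨c, b'⟩ := p
    simp only [dbl, List.mem_cons, ih, Prod.mk.injEq]
    constructor
    · rintro (h | h | h)
      · exact Or.inl ⟨h.1.1, h.2⟩
      · exact Or.inl ⟨h.1.1, h.2⟩
      · exact Or.inr h
    · rintro (h | h)
      · by_cases hs : s = σ (c, b')
        · exact Or.inl ⟨⟨h.1, hs⟩, h.2⟩
        · refine Or.inr (Or.inl ⟨⟨h.1, ?_⟩, h.2⟩)
          revert hs
          cases s <;> cases σ (c, b') <;> simp
      · exact Or.inr (Or.inr h)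

lemma dbl_valid (σ : Fin n × Bool → Bool) {E : List (Fin n × Bool)} (hE : Valid E) :
    Valid (dbl σ E) := by
  obtain ⟨h1, h2⟩ := hE
  refine ⟨?_, ?_⟩
  · clear h2
    induction E with
    | nil => exact List.nodup_nil
    | cons p E ih =>
      obtain ⟨c, b'⟩ := p
      rw [List.nodup_cons] at h1
      simp only [dbl]
      rw [List.nodup_cons, List.nodup_cons, List.mem_cons, mem_dbl, mem_dbl]
      refine ⟨?_, h1.1, ih h1.2⟩
      rintro (h | h)
      · simp at h
      · exact h1.1 h
  · rintro ⟨a, s⟩ b hb
    rw [mem_dbl] at hb ⊢
    exact h2 a b hb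

lemma dbl_length (σ : Fin n × Bool → Bool) (E : List (Fin n × Bool)) :
    (dbl σ E).length = 2 * E.length := by
  induction E with
  | nil => rfl
  | cons p E ih => simp [dbl, ih]; ring

lemma dbl_congr {σ σ' : Fin n × Bool → Bool} {E : List (Fin n × Bool)}
    (h : ∀ p ∈ E, σ p = σ' p) : dbl σ E = dbl σ' E := by
  induction E with
  | nil => rfl
  | cons p E ih =>
    simp only [dbl]
    rw [h p List.mem_cons_self, ih fun q hq => h q (List.mem_cons_of_mem _ hq)]

/-! ### The Weyl side -/

/-- The symmetrised token. -/
def htok {R : Type} [Ring R] (x d : R) (i : Fin n × Bool → Bool) (p : Fin n × Bool) : R :=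
  tok x d p.2 (i (p.1, false)) * tok x d p.2 (i (p.1, true)) +
    tok x d p.2 (i (p.1, true)) * tok x d p.2 (i (p.1, false))

lemma sum_dbl_valW {R : Type} [Ring R] (x d : R) (i : Fin n × Bool → Bool)
    (E : List (Fin n × Bool)) (hE : E.Nodup) :
    2 ^ E.length • ∑ σ : Fin n × Bool → Bool, valW x d i (dbl σ E) =
      2 ^ (2 * n) • (E.map (htok x d i)).prod := by
  induction E with
  | nil =>
    simp [dbl, valW, mul_comm n 2]
  | cons p E ih =>
    rw [List.nodup_cons] at hE
    have e := sum_update (L := Bool) p
      (fun σ : Fin n × Bool → Bool => valW x d i (dbl σ (p :: E)))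
    have key : ∀ σ : Fin n × Bool → Bool, ∑ m, valW x d i (dbl (Function.update σ p m) (p :: E)) =
        htok x d i p * valW x d i (dbl σ E) := by
      intro σ
      have h1 : ∀ m, dbl (Function.update σ p m) E = dbl σ E := fun m =>
        dbl_congr fun q hq => Function.update_of_ne (by rintro rfl; exact hE.1 hq) _ _
      simp only [dbl, h1, Fintype.sum_bool, Function.update_self]
      simp only [valW, List.map_cons, List.prod_cons, Bool.not_true, Bool.not_false, htok]
      noncomm_ring
    simp only [key, ← mul_sum, Fintype.card_bool] at e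
    rw [List.length_cons, pow_succ, mul_smul, e, ← mul_smul_comm, ih hE.2, List.map_cons,
      List.prod_cons, mul_smul_comm]

/-! ### The sign side -/

lemma sgnW_swap {α : Type} [DecidableEq α] {ord : α → ℕ} (hord : Function.Injective ord)
    {L : Type} [DecidableEq L] (i : α → L) (u : List (α × Bool)) {y z : α × Bool}
    (v : List (α × Bool)) (hyz : y ≠ z) (hi : i y.1 = i z.1) :
    sgnW ord i (u ++ y :: z :: v) = -sgnW ord i (u ++ z :: y :: v) := by
  induction u with
  | nil =>
    have h : tau ord i z y = -tau ord i y z := by
      unfold tau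
      rw [if_pos hi, if_pos hi.symm, sg_swap hord hyz]
    simp only [List.nil_append, sgnW, List.map_cons, List.prod_cons, h]
    ring
  | cons w u ih =>
    simp only [List.cons_append, sgnW, ih, List.map_append, List.prod_append, List.map_cons,
      List.prod_cons]
    ring

lemma sum_dbl_improper {L : Type} [DecidableEq L] {i : Fin n × Bool → L} (hi : ¬ Proper i)
    {E : List (Fin n × Bool)} (hE : E.Nodup) (hfull : ∀ p, p ∈ E) :
    ∑ σ : Fin n × Bool → Bool, sgnW ordn i (dbl σ E) = 0 := by
  obtain ⟨a, ha⟩ : ∃ a, i (a, false) = i (a, true) := by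
    unfold Proper at hi
    push Not at hi
    exact hi
  obtain ⟨E1, E2, rfl⟩ := List.append_of_mem (hfull (a, false))
  have h1 : (a, false) ∉ E1 ∧ (a, false) ∉ E2 := by
    rw [List.nodup_append] at hE
    refine ⟨fun h => hE.2.2 _ h _ List.mem_cons_self rfl, (List.nodup_cons.mp hE.2.1).1⟩
  have e := sum_update (L := Bool) (a, false)
    (fun σ : Fin n × Bool → Bool => sgnW ordn i (dbl σ (E1 ++ (a, false) :: E2)))
  have key : ∀ σ : Fin n × Bool → Bool,
      ∑ m, sgnW ordn i (dbl (Function.update σ (a, false) m) (E1 ++ (a, false) :: E2)) = 0 := by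
    intro σ
    have hc1 : ∀ m, dbl (Function.update σ (a, false) m) E1 = dbl σ E1 := fun m =>
      dbl_congr fun q hq => Function.update_of_ne (by rintro rfl; exact h1.1 hq) _ _
    have hc2 : ∀ m, dbl (Function.update σ (a, false) m) E2 = dbl σ E2 := fun m =>
      dbl_congr fun q hq => Function.update_of_ne (by rintro rfl; exact h1.2 hq) _ _
    simp only [dbl_append, dbl, hc1, hc2, Fintype.sum_bool, Function.update_self, Bool.not_true,
      Bool.not_false]
    rw [sgnW_swap ordn_injective i (dbl σ E1) (y := ((a, true), false)) (z := ((a, false), false))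
      (dbl σ E2) (by simp) ha.symm]
    ring
  simp only [key, sum_const_zero, Fintype.card_bool] at e
  have e' : (2 : ℂ) * ∑ σ : Fin n × Bool → Bool,
      sgnW ordn i (dbl σ (E1 ++ (a, false) :: E2)) = 0 := by
    rw [← e]; simp
  exact (mul_eq_zero.mp e').resolve_left (by norm_num)

/-- The signs of the inversions of a word. -/
def invW (e : Fin n → Fin n → ℂ) : List (Fin n) → ℂ
  | [] => 1
  | a :: l => (l.map fun c => if c < a then e a c else 1).prod * invW e l

lemma sgnW_dbl {L : Type} [DecidableEq L] {i : Fin n × Bool → L} (hi : Proper i)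
    (σ : Fin n × Bool → Bool) {E : List (Fin n × Bool)} (hE : E.Nodup) :
    sgnW ordn i (dbl σ E) = invW (eps i) (E.map Prod.fst) := by
  induction E with
  | nil => rfl
  | cons p E ih =>
    obtain ⟨a, b⟩ := p
    rw [List.nodup_cons] at hE
    simp only [dbl, sgnW, List.map_cons, List.prod_cons, invW]
    rw [ih hE.2]
    generalize σ (a, b) = s
    have h0 : tau ordn i ((a, s), b) ((a, !s), b) = 1 := by
      unfold tau
      rw [if_neg]
      cases s
      · exact hi a
      · exact (hi a).symm
    rw [h0, one_mul]
    have key : ∀ F : List (Fin n × Bool), (a, b) ∉ F →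
        ((dbl σ F).map (tau ordn i ((a, s), b))).prod *
          ((dbl σ F).map (tau ordn i ((a, !s), b))).prod =
        ((F.map Prod.fst).map fun c => if c < a then eps i a c else 1).prod := by
      intro F hF
      induction F with
      | nil => simp [dbl]
      | cons q F ihF =>
        obtain ⟨c, b'⟩ := q
        rw [List.mem_cons, not_or] at hF
        simp only [dbl, List.map_cons, List.prod_cons]
        rw [← ihF hF.2]
        have hloc : tau ordn i ((a, s), b) ((c, σ (c, b')), b') *
            tau ordn i ((a, s), b) ((c, !σ (c, b')), b') *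
            (tau ordn i ((a, !s), b) ((c, σ (c, b')), b') *
            tau ordn i ((a, !s), b) ((c, !σ (c, b')), b')) =
            if c < a then eps i a c else 1 := by
          generalize σ (c, b') = t
          by_cases hca : c = a
          · subst hca
            rw [if_neg (lt_irrefl _)]
            have hn := hi c
            have hn' := hn.symm
            unfold tau sg
            cases s <;> cases t <;> cases b <;> simp [hn, hn']
          · have hac : a ≠ c := Ne.symm hca
            have hsg : ∀ s t : Bool, sg ordn ((a, s), b) ((c, t), b') = if c < a then -1 else 1 := by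
              intro s t
              unfold sg
              rw [if_neg (by simp [hac])]
              have hlt : (ordn (a, s) < ordn (c, t)) ↔ ¬ c < a := by
                simp only [ordn]
                have hs : s.toNat < 2 := Bool.toNat_lt s
                have ht : t.toNat < 2 := Bool.toNat_lt t
                have : a.val ≠ c.val := fun h => hac (Fin.ext h)
                rw [Fin.lt_def]
                omega
              simp only [hlt]
              split_ifs <;> rfl
            unfold tau
            simp only [hsg]
            by_cases hlt : c < a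
            · simp only [if_pos hlt]
              unfold eps
              simp only [Fintype.prod_bool]
              cases s <;> cases t <;> simp only [Bool.not_true, Bool.not_false] <;> ring
            · simp only [if_neg hlt, ite_self, mul_one]
        rw [← hloc]
        ring
    rw [← key E hE.1]
    ring

/-! ### Crossings -/

/-- The chords `a` and `b` cross: they interlace in the word. -/
def Cross (D : List (Fin n)) (a b : Fin n) : Prop :=
  [a, b, a, b].Sublist D ∨ [b, a, b, a].Sublist D

/-- The number of inversions between two letters. -/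
def inv2 (a b : Fin n) : List (Fin n) → ℕ
  | [] => 0
  | x :: l => (if x = b then l.count a else 0) + inv2 a b l

lemma prod_map_count (f : Fin n → ℂ) (l : List (Fin n)) :
    (l.map f).prod = ∏ a, f a ^ l.count a := by
  induction l with
  | nil => simp
  | cons x l ih =>
    rw [List.map_cons, List.prod_cons, ih]
    have : ∀ a, (x :: l).count a = l.count a + if a = x then 1 else 0 := by
      intro a
      rw [List.count_cons]
      by_cases h : x = a
      · subst h; simp
      · simp [h, Ne.symm h]
    simp only [this, pow_add, prod_mul_distrib]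
    rw [mul_comm]
    congr 1
    rw [prod_eq_single x]
    · simp
    · intro b _ hb; simp [hb]
    · intro h; exact absurd (mem_univ _) h

lemma invW_eq (e : Fin n → Fin n → ℂ) (he : ∀ a b, e a b = e b a) (D : List (Fin n)) :
    invW e D = PP (fun a b => e a b ^ inv2 a b D) := by
  induction D with
  | nil => simp [invW, inv2, PP]
  | cons x l ih =>
    simp only [invW, inv2, pow_add]
    rw [ih, PP_mul]
    congr 1
    rw [prod_map_count]
    have h1 : PP (fun a b => e a b ^ (if x = b then l.count a else 0)) =
        PP (fun a b => if a = x then 1 else if b = x then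
          (if a < x then e x a else 1) ^ l.count a else 1) := by
      refine PP_congr fun a b hab => ?_
      by_cases hb : x = b
      · subst hb
        rw [if_pos rfl, if_neg (ne_of_lt hab), if_pos rfl, if_pos hab, he]
      · rw [if_neg hb, pow_zero]
        by_cases ha : a = x
        · rw [if_pos ha]
        · rw [if_neg ha, if_neg (Ne.symm hb)]
    rw [h1]
    have h2 : PP (fun a b => if a = x then 1 else if b = x then
          (if a < x then e x a else 1) ^ l.count a else 1) =
        PP (fun a b => if a = x then (fun v => (if v < x then e x v else 1) ^ l.count v) b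
          else if b = x then (fun v => (if v < x then e x v else 1) ^ l.count v) a else 1) := by
      refine PP_congr fun a b hab => ?_
      by_cases ha : a = x
      · subst ha
        rw [if_pos rfl, if_pos rfl]
        simp [not_lt.mpr hab.le]
      · rw [if_neg ha, if_neg ha]
    rw [h2, PP_star]
    refine prod_congr rfl fun v _ => ?_
    by_cases hv : v = x
    · subst hv; simp
    · simp [hv]

lemma length_of_two {a b : Fin n} (hab : a ≠ b) (l : List (Fin n)) (h : ∀ x ∈ l, x = a ∨ x = b) :
    l.length = l.count a + l.count b := by
  induction l with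
  | nil => simp
  | cons x l ih =>
    have h1 := ih fun y hy => h y (List.mem_cons_of_mem _ hy)
    rcases h x List.mem_cons_self with rfl | rfl
    · rw [List.length_cons, List.count_cons_self, List.count_cons_of_ne hab, h1]; ring
    · rw [List.length_cons, List.count_cons_self, List.count_cons_of_ne hab.symm, h1]; ring

lemma inv2_filter {a b : Fin n} (D : List (Fin n)) :
    inv2 a b (D.filter fun x => x = a ∨ x = b) = inv2 a b D := by
  induction D with
  | nil => rfl
  | cons x l ih =>
    have hc : (l.filter fun x => decide (x = a ∨ x = b)).count a = l.count a := by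
      rw [List.count_filter]; simp
    by_cases hx : x = a ∨ x = b
    · rw [List.filter_cons_of_pos (by simpa using hx)]
      simp only [inv2, ih, hc]
    · rw [List.filter_cons_of_neg (by simpa using hx), ih]
      rw [not_or] at hx
      simp [inv2, hx.2]

lemma cross_filter {a b : Fin n} (D : List (Fin n)) :
    Cross (D.filter fun x => x = a ∨ x = b) a b ↔ Cross D a b := by
  have h : ∀ w : List (Fin n), (∀ x ∈ w, x = a ∨ x = b) →
      (w.Sublist (D.filter fun x => x = a ∨ x = b) ↔ w.Sublist D) := by
    intro w hw
    constructor
    · intro h; exact h.trans List.filter_sublist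
    · intro h
      have := h.filter fun x => decide (x = a ∨ x = b)
      rwa [List.filter_eq_self.mpr (by simpa using hw)] at this
  unfold Cross
  rw [h _ (by simp), h _ (by simp)]

lemma inv2_parity {a b : Fin n} (hab : a ≠ b) (D : List (Fin n)) (ha : D.count a = 2)
    (hb : D.count b = 2) : inv2 a b D % 2 = 1 ↔ Cross D a b := by
  rw [← inv2_filter, ← cross_filter]
  have h1 : ∀ x ∈ D.filter fun x => decide (x = a ∨ x = b), x = a ∨ x = b := by
    intro x hx
    simpa using (List.mem_filter.mp hx).2
  have ha' : (D.filter fun x => decide (x = a ∨ x = b)).count a = 2 := by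
    rw [List.count_filter (by simp), ha]
  have hb' : (D.filter fun x => decide (x = a ∨ x = b)).count b = 2 := by
    rw [List.count_filter (by simp), hb]
  generalize (D.filter fun x => decide (x = a ∨ x = b)) = l at h1 ha' hb'
  have hl : l.length = 4 := by rw [length_of_two hab l h1, ha', hb']
  have hcr : Cross l a b ↔ (l = [a, b, a, b] ∨ l = [b, a, b, a]) := by
    unfold Cross
    constructor
    · rintro (h | h)
      · exact Or.inl (h.eq_of_length (by simp [hl])).symm
      · exact Or.inr (h.eq_of_length (by simp [hl])).symm
    · rintro (h | h)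
      · exact Or.inl (by rw [h])
      · exact Or.inr (by rw [h])
  rw [hcr]
  match l, hl with
  | [x, y, z, w], _ =>
    have hba := hab.symm
    have hx := h1 x (by simp)
    have hy := h1 y (by simp)
    have hz := h1 z (by simp)
    have hw := h1 w (by simp)
    rcases hx with rfl | rfl <;> rcases hy with rfl | rfl <;> rcases hz with rfl | rfl <;>
    rcases hw with rfl | rfl <;>
    simp_all [inv2]

lemma invW_cross (e : Fin n → Fin n → ℂ) (he : ∀ a b, e a b = e b a)
    (hsq : ∀ a b, e a b * e a b = 1) (D : List (Fin n)) (hD : ∀ a, D.count a = 2) :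
    invW e D = PP (fun a b => open scoped Classical in if Cross D a b then e a b else 1) := by
  rw [invW_eq e he]
  refine PP_congr fun a b hab => ?_
  have h := inv2_parity (ne_of_lt hab) D (hD a) (hD b)
  have hpow : e a b ^ inv2 a b D = e a b ^ (inv2 a b D % 2) := by
    conv_lhs => rw [← Nat.div_add_mod (inv2 a b D) 2]
    rw [pow_add, pow_mul, pow_two, hsq, one_pow, one_mul]
  rw [hpow]
  by_cases hc : Cross D a b
  · rw [h.mpr hc, if_pos hc, pow_one]
  · have : inv2 a b D % 2 = 0 := by
      have h1 : inv2 a b D % 2 ≠ 1 := fun h2 => hc (h.mp h2)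
      omega
    rw [this, if_neg hc, pow_zero]

end Pool.Agent.X221.Chord
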