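import Pool.Agent.X221.Chord.Poly

/-!
# The coloured weight of a graph, and its 4-term relation
-/

namespace Pool.Agent.X221.Chord

open Finset Polynomial

open scoped Classical in
/-- The product of a function over all pairs `a < b`. -/
noncomputable def PP {n : ℕ} (A : Fin n → Fin n → ℂ) : ℂ :=
  ∏ p : Fin n × Fin n, if p.1 < p.2 then A p.1 p.2 else 1

lemma PP_mul {n : ℕ} (A B : Fin n → Fin n → ℂ) : PP (fun a b => A a b * B a b) = PP A * PP B := by
  unfold PP
  rw [← prod_mul_distrib]
  exact prod_congr rfl fun p _ => by split_ifs <;> simp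

lemma PP_congr {n : ℕ} {A B : Fin n → Fin n → ℂ} (h : ∀ a b, a < b → A a b = B a b) :
    PP A = PP B := by
  unfold PP
  exact prod_congr rfl fun p _ => by
    split_ifs with h1
    · exact h _ _ h1
    · rfl

/-- Invariance under permutations. -/
lemma PP_perm {n : ℕ} (A : Fin n → Fin n → ℂ) (hA : ∀ a b, A a b = A b a)
    (e : Equiv.Perm (Fin n)) : PP (fun a b => A (e a) (e b)) = PP A := by
  classical
  unfold PP
  rw [← prod_filter, ← prod_filter]
  refine prod_bij' (fun p _ => if e p.1 < e p.2 then (e p.1, e p.2) else (e p.2, e p.1))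
    (fun p _ => if e.symm p.1 < e.symm p.2 then (e.symm p.1, e.symm p.2)
      else (e.symm p.2, e.symm p.1)) ?_ ?_ ?_ ?_ ?_
  · intro p hp
    simp only [mem_filter, mem_univ, true_and] at hp ⊢
    split_ifs with h
    · exact h
    · have : e p.1 ≠ e p.2 := fun h' => (ne_of_lt hp) (e.injective h')
      exact lt_of_le_of_ne (not_lt.mp h) (Ne.symm this)
  · intro p hp
    simp only [mem_filter, mem_univ, true_and] at hp ⊢
    split_ifs with h
    · exact h
    · have : e.symm p.1 ≠ e.symm p.2 := fun h' => (ne_of_lt hp) (e.symm.injective h')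
      exact lt_of_le_of_ne (not_lt.mp h) (Ne.symm this)
  · intro p hp
    simp only [mem_filter, mem_univ, true_and] at hp
    by_cases h : e p.1 < e p.2
    · simp only [if_pos h, Equiv.symm_apply_apply, if_pos hp]
    · simp only [if_neg h, Equiv.symm_apply_apply, if_neg (not_lt.mpr hp.le)]
  · intro p hp
    simp only [mem_filter, mem_univ, true_and] at hp
    by_cases h : e.symm p.1 < e.symm p.2
    · simp only [if_pos h, Equiv.apply_symm_apply, if_pos hp]
    · simp only [if_neg h, Equiv.apply_symm_apply, if_neg (not_lt.mpr hp.le)]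
  · intro p hp
    split_ifs with h
    · rfl
    · exact hA _ _

/-- The product of a star-shaped function. -/
lemma PP_star {n : ℕ} (b : Fin n) (β : Fin n → ℂ) :
    PP (fun x y => if x = b then β y else if y = b then β x else 1) =
      ∏ v, if v = b then 1 else β v := by
  classical
  unfold PP
  rw [Fintype.prod_prod_type]
  have h1 : ∀ x : Fin n, ∏ y, (if x < y then (if x = b then β y else if y = b then β x else 1)
      else 1) = (if x < b then β x else 1) * (if x = b then ∏ y, (if b < y then β y else 1)
        else 1) := by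
    intro x
    by_cases hx : x = b
    · subst hx; simp
    · simp only [if_neg hx, mul_one]
      rw [← prod_filter, ]
      by_cases hxb : x < b
      · rw [if_pos hxb, prod_eq_single b]
        · simp
        · intro y _ hy; simp [hy]
        · intro h; exact absurd (by simp [hxb]) h
      · rw [if_neg hxb]
        refine prod_eq_one fun y hy => ?_
        rw [if_neg]
        rintro rfl
        exact hxb (mem_filter.mp hy).2
  simp only [h1]
  rw [prod_mul_distrib]
  have h2 : ∏ x : Fin n, (if x = b then ∏ y, (if b < y then β y else 1) else (1 : ℂ)) =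
      ∏ y, (if b < y then β y else 1) := by
    rw [prod_ite_eq' univ b]; simp
  rw [h2, ← prod_mul_distrib]
  refine prod_congr rfl fun v _ => ?_
  rcases lt_trichotomy v b with h | h | h
  · rw [if_pos h, if_neg (not_lt.mpr h.le), if_neg (ne_of_lt h), mul_one]
  · subst h; simp
  · rw [if_neg (not_lt.mpr h.le), if_pos h, if_neg (ne_of_gt h), one_mul]

section weights

variable {n : ℕ} {L : Type} [DecidableEq L]

/-- The sign attached to the colours of two vertices. -/
def eps (i : Fin n × Bool → L) (a b : Fin n) : ℂ :=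
  ∏ s : Bool, ∏ t : Bool, if i (a, s) = i (b, t) then -1 else 1

/-- The colouring is proper at every vertex. -/
def Proper (i : Fin n × Bool → L) : Prop := ∀ a, i (a, false) ≠ i (a, true)

open scoped Classical in
/-- The weight of a colouring. -/
noncomputable def wt (G : SimpleGraph (Fin n)) (i : Fin n × Bool → L) : ℂ :=
  if Proper i then PP (fun a b => if G.Adj a b then eps i a b else 1) else 0

lemma eps_symm (i : Fin n × Bool → L) (a b : Fin n) : eps i a b = eps i b a := by
  unfold eps
  rw [prod_comm]
  refine prod_congr rfl fun s _ => prod_congr rfl fun t _ => ?_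
  by_cases h : i (a, t) = i (b, s)
  · rw [if_pos h, if_pos h.symm]
  · rw [if_neg h, if_neg (fun h' => h h'.symm)]

lemma eps_sq (i : Fin n × Bool → L) (a b : Fin n) : eps i a b * eps i a b = 1 := by
  unfold eps
  simp only [Fintype.prod_bool]
  split_ifs <;> norm_num

lemma eps_cases (i : Fin n × Bool → L) (a b : Fin n) : eps i a b = 1 ∨ eps i a b = -1 := by
  unfold eps
  simp only [Fintype.prod_bool]
  split_ifs <;> norm_num

open scoped Classical in
/-- The weight only depends on the kernel. -/
lemma wt_kern (G : SimpleGraph (Fin n)) : ∃ g : (Fin n × Bool → Fin n × Bool → Bool) → ℂ,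
    ∀ (L : Type) [DecidableEq L] (i : Fin n × Bool → L), wt G i = g (kern i) := by
  refine ⟨fun κ => if (∀ a, κ (a, false) (a, true) = false) then
    PP (fun a b => if G.Adj a b then ∏ s : Bool, ∏ t : Bool,
      (if κ (a, s) (b, t) = true then (-1 : ℂ) else 1) else 1) else 0, fun L _ i => ?_⟩
  unfold wt
  have h1 : Proper i ↔ ∀ a, kern i (a, false) (a, true) = false := by
    simp [Proper, kern]
  simp only [h1]
  refine if_congr Iff.rfl ?_ rfl
  refine PP_congr fun a b _ => ?_
  simp [eps, kern]

/-- The polynomial of a graph. -/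
lemma exists_graph_poly (G : SimpleGraph (Fin n)) : ∃ r : ℂ[X], ∀ M : ℕ, 1 ≤ M →
    ∑ i : Fin n × Bool → Fin M, wt G i = (M : ℂ) ^ (2 * n) * r.eval (M : ℂ)⁻¹ := by
  obtain ⟨g, hg⟩ := wt_kern G
  obtain ⟨r, hr⟩ := exists_poly g
  refine ⟨r, fun M hM => ?_⟩
  have := hr M hM
  rw [Fintype.card_prod, Fintype.card_bool, Fintype.card_fin, mul_comm n 2] at this
  rw [← this]
  exact sum_congr rfl fun i _ => hg _ i

/-- The polynomial of a graph. -/
noncomputable def gpoly (G : SimpleGraph (Fin n)) : ℂ[X] := (exists_graph_poly G).choose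

lemma gpoly_spec (G : SimpleGraph (Fin n)) (M : ℕ) (hM : 1 ≤ M) :
    ∑ i : Fin n × Bool → Fin M, wt G i = (M : ℂ) ^ (2 * n) * (gpoly G).eval (M : ℂ)⁻¹ :=
  (exists_graph_poly G).choose_spec M hM

/-- A way to prove polynomial identities. -/
lemma gpoly_ext {r r' : ℂ[X]} (h : ∀ M : ℕ, 1 ≤ M →
    (M : ℂ) ^ (2 * n) * r.eval (M : ℂ)⁻¹ = (M : ℂ) ^ (2 * n) * r'.eval (M : ℂ)⁻¹) : r = r' := by
  refine poly_ext fun M hM => ?_
  have hM0 : (M : ℂ) ≠ 0 := by
    have : M ≠ 0 := by omega
    exact_mod_cast this
  exact mul_left_cancel₀ (pow_ne_zero _ hM0) (h M hM)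

lemma gpoly_iso {G G' : SimpleGraph (Fin n)} (e : G ≃g G') : gpoly G = gpoly G' := by
  apply gpoly_ext (n := n)
  intro M hM
  rw [← gpoly_spec G M hM, ← gpoly_spec G' M hM]
  classical
  let E : (Fin n × Bool → Fin M) ≃ (Fin n × Bool → Fin M) :=
    Equiv.arrowCongr (Equiv.prodCongr e.toEquiv (Equiv.refl _)) (Equiv.refl _)
  refine (Fintype.sum_equiv E _ _ fun i => ?_)
  have hE : ∀ a s, E i (e a, s) = i (a, s) := by
    intro a s
    have : e.toEquiv.symm (e a) = a := e.toEquiv.symm_apply_apply a
    simp [E, Equiv.arrowCongr, this]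
  unfold wt
  have h1 : Proper (E i) ↔ Proper i := by
    constructor
    · intro h a
      have := h (e a)
      rwa [hE, hE] at this
    · intro h a
      obtain ⟨b, rfl⟩ := e.surjective a
      rw [hE, hE]; exact h b
  refine if_congr h1.symm ?_ rfl
  rw [← PP_perm (fun a b => if G'.Adj a b then eps (E i) a b else 1) ?_ e.toEquiv]
  · refine PP_congr fun a b _ => ?_
    show (if G.Adj a b then eps i a b else 1) =
      if G'.Adj (e a) (e b) then eps (E i) (e a) (e b) else 1
    rw [e.map_adj_iff]
    have : eps (E i) (e a) (e b) = eps i a b := by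
      unfold eps
      simp only [hE]
    rw [this]
  · intro a b
    simp only [G'.adj_comm a b, eps_symm (E i) a b]

end weights

end Pool.Agent.X221.Chord
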