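import Pool.Agent.X221.Chord.Double

/-!
# Chord diagrams, and the oscillator representation
-/

namespace Pool.Agent.X221.Chord

open Finset Polynomial

variable {n : ℕ}

/-- Mark the letters of a double occurrence word: the first occurrence of a letter is marked
`false`, the second (last) one `true`. -/
def mark : List (Fin n) → List (Fin n × Bool)
  | [] => []
  | a :: l => (a, decide (a ∉ l)) :: mark l

/-- The intersection graph of a chord diagram given as a double occurrence word: two different
chords are adjacent if their end points interlace. -/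
def interGraph (D : List (Fin n)) : SimpleGraph (Fin n) where
  Adj a b := a ≠ b ∧ Cross D a b
  symm := by
    constructor
    rintro a b ⟨h1, h2⟩
    exact ⟨h1.symm, h2.symm⟩
  loopless := ⟨fun a h => h.1 rfl⟩

lemma mark_fst (D : List (Fin n)) : (mark D).map Prod.fst = D := by
  induction D with
  | nil => rfl
  | cons a l ih => simp [mark, ih]

lemma mem_mark_true (D : List (Fin n)) (a : Fin n) : (a, true) ∈ mark D ↔ 1 ≤ D.count a := by
  induction D with
  | nil => simp [mark]
  | cons b l ih =>
    rw [mark, List.mem_cons, ih, List.count_cons]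
    by_cases h : b = a
    · subst h
      simp only [Prod.mk.injEq, true_and, beq_self_eq_true, if_true]
      constructor
      · intro _; omega
      · intro _
        by_cases hb : b ∈ l
        · exact Or.inr (List.count_pos_iff.mpr hb)
        · left; simp [hb]
    · have : ¬ (a = b) := fun h' => h h'.symm
      simp [h, this]

lemma mem_mark_false (D : List (Fin n)) (a : Fin n) : (a, false) ∈ mark D ↔ 2 ≤ D.count a := by
  induction D with
  | nil => simp [mark]
  | cons b l ih =>
    rw [mark, List.mem_cons, ih, List.count_cons]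
    by_cases h : b = a
    · subst h
      simp only [Prod.mk.injEq, true_and, beq_self_eq_true, if_true]
      constructor
      · rintro (h1 | h1)
        · have : b ∈ l := by simpa using h1.symm
          have := List.count_pos_iff.mpr this
          omega
        · omega
      · intro h1
        left
        have : 0 < l.count b := by omega
        have := List.count_pos_iff.mp this
        simp [this]
    · have : ¬ (a = b) := fun h' => h h'.symm
      simp [h, this]

lemma mark_nodup (D : List (Fin n)) (hD : ∀ a, D.count a ≤ 2) : (mark D).Nodup := by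
  induction D with
  | nil => exact List.nodup_nil
  | cons b l ih =>
    have hl : ∀ a, l.count a ≤ 2 := fun a => by
      have := hD a
      rw [List.count_cons] at this
      omega
    rw [mark, List.nodup_cons]
    refine ⟨?_, ih hl⟩
    by_cases hb : b ∈ l
    · have : decide (b ∉ l) = false := by simp [hb]
      rw [this, mem_mark_false]
      have h2 := hD b
      rw [List.count_cons_self] at h2
      omega
    · have : decide (b ∉ l) = true := by simp [hb]
      rw [this, mem_mark_true]
      rw [List.count_eq_zero.mpr hb]
      omega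

section

variable {D : List (Fin n)} (hD : ∀ a, D.count a = 2)

include hD

lemma mark_full (p : Fin n × Bool) : p ∈ mark D := by
  obtain ⟨a, b⟩ := p
  cases b
  · rw [mem_mark_false, hD]
  · rw [mem_mark_true, hD]; omega

lemma mark_nodup' : (mark D).Nodup := mark_nodup D fun a => (hD a).le

lemma mark_valid : Valid (mark D) := ⟨mark_nodup' hD, fun _ _ _ => mark_full hD _⟩

lemma mark_toFinset : (mark D).toFinset = univ := by
  ext p; simp [mark_full hD p]

lemma mark_length : (mark D).length = 2 * n := by
  rw [← List.toFinset_card_of_nodup (mark_nodup' hD), mark_toFinset hD]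
  simp [mul_comm]

lemma mark_prod (f : Fin n × Bool → ℂ) : ((mark D).map f).prod = ∏ p, f p := by
  rw [← List.prod_toFinset f (mark_nodup' hD), mark_toFinset hD]

/-- The sum over all labels and orders in the Weyl algebra. -/
theorem weyl_sum {R : Type} [Ring R] [Algebra ℂ R] {x d : R} (hd : d * x = x * d + 1) :
    ∑ i : Fin n × Bool → Bool, ((mark D).map (htok x d i)).prod =
      ((4 : ℂ) ^ n * (gpoly (interGraph D)).eval (-1 / 2)) • (1 : R) := by
  have hcmp : ∀ σ : Fin n × Bool → Bool, ∃ r : ℂ[X], (∀ M : ℕ, 1 ≤ M →
      ∑ i : Fin n × Bool → Fin M, sgnW ordn i (dbl σ (mark D)) =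
        (M : ℂ) ^ (2 * n) * r.eval (M : ℂ)⁻¹) ∧
      ∑ i : Fin n × Bool → Bool, valW x d i (dbl σ (mark D)) =
        (2 ^ (2 * n) * (-1 / 2 : ℂ) ^ (2 * n) * r.eval (-1 / 2)) • (1 : R) := by
    intro σ
    refine recursion_compare (2 * n) _
      (fun M w => ∑ i : Fin n × Bool → Fin M, sgnW ordn i w) (recur_valW hd)
      (fun M _ => recur_sgnW ordn_injective M) ?_ ?_ (2 * n) _ (dbl_valid σ (mark_valid hD)) ?_
    · simp only [valW, List.map_nil, List.prod_nil, sum_const, card_univ, Fintype.card_fun,
        Fintype.card_bool, Fintype.card_prod, Fintype.card_fin]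
      rw [← Nat.cast_smul_eq_nsmul ℂ, mul_comm n 2]
      push_cast
      rfl
    · intro M _
      simp [sgnW, mul_comm n 2]
    · rw [dbl_length, mark_length hD]
  choose r hr using hcmp
  -- the polynomial identity
  have hpoly : ∑ σ, r σ = C ((4 : ℂ) ^ n) * gpoly (interGraph D) := by
    apply gpoly_ext (n := n)
    intro M hM
    rw [eval_finsetSum, mul_sum, eval_mul, eval_C]
    have h1 : (M : ℂ) ^ (2 * n) * ((4 : ℂ) ^ n * (gpoly (interGraph D)).eval (M : ℂ)⁻¹) =
        (4 : ℂ) ^ n * ∑ i : Fin n × Bool → Fin M, wt (interGraph D) i := by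
      rw [gpoly_spec _ M hM]; ring
    rw [h1]
    have h2 : ∀ σ : Fin n × Bool → Bool, (M : ℂ) ^ (2 * n) * (r σ).eval (M : ℂ)⁻¹ =
        ∑ i : Fin n × Bool → Fin M, sgnW ordn i (dbl σ (mark D)) :=
      fun σ => ((hr σ).1 M hM).symm
    simp only [h2]
    rw [sum_comm, mul_sum]
    refine sum_congr rfl fun i _ => ?_
    by_cases hi : Proper i
    · have h3 : ∀ σ : Fin n × Bool → Bool, sgnW ordn i (dbl σ (mark D)) =
          wt (interGraph D) i := by
        intro σ
        rw [sgnW_dbl hi σ (mark_nodup' hD), mark_fst,
          invW_cross (eps i) (eps_symm i) (eps_sq i) D hD]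
        unfold wt
        rw [if_pos hi]
        refine PP_congr fun a b hab => ?_
        have hab' : a ≠ b := ne_of_lt hab
        have : (interGraph D).Adj a b ↔ Cross D a b := by simp [interGraph, hab']
        by_cases hc : Cross D a b
        · rw [if_pos hc, if_pos (this.mpr hc)]
        · rw [if_neg hc, if_neg (fun h => hc (this.mp h))]
      simp only [h3, sum_const, card_univ, Fintype.card_fun, Fintype.card_bool,
        Fintype.card_prod, Fintype.card_fin, nsmul_eq_mul]
      have : (4 : ℂ) ^ n = 2 ^ (n * 2) := by
        rw [mul_comm, pow_mul]; norm_num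
      rw [this]
      push_cast
      rfl
    · rw [sum_dbl_improper hi (mark_nodup' hD) (mark_full hD)]
      unfold wt
      rw [if_neg hi, mul_zero]
  -- the Weyl side
  have hW : ∀ i : Fin n × Bool → Bool, ((mark D).map (htok x d i)).prod =
      ∑ σ : Fin n × Bool → Bool, valW x d i (dbl σ (mark D)) := by
    intro i
    have h1 := sum_dbl_valW x d i (mark D) (mark_nodup' hD)
    rw [mark_length hD] at h1
    have h2 : (2 : ℂ) ^ (2 * n) • ∑ σ : Fin n × Bool → Bool, valW x d i (dbl σ (mark D)) =
        (2 : ℂ) ^ (2 * n) • ((mark D).map (htok x d i)).prod := by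
      have h3 : ∀ z : R, (2 : ℂ) ^ (2 * n) • z = (2 ^ (2 * n) : ℕ) • z := by
        intro z
        rw [← Nat.cast_smul_eq_nsmul ℂ]
        push_cast
        rfl
      rw [h3, h3]
      exact h1
    have h4 : (2 : ℂ) ^ (2 * n) ≠ 0 := pow_ne_zero _ (by norm_num)
    have h5 := congrArg (fun z => ((2 : ℂ) ^ (2 * n))⁻¹ • z) h2
    simp only [smul_smul, inv_mul_cancel₀ h4, one_smul] at h5
    exact h5.symm
  simp only [hW]
  rw [sum_comm]
  have h6 : ∀ σ : Fin n × Bool → Bool, ∑ i : Fin n × Bool → Bool, valW x d i (dbl σ (mark D)) =
      ((r σ).eval (-1 / 2)) • (1 : R) := by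
    intro σ
    rw [(hr σ).2]
    congr 1
    rw [← mul_pow]
    norm_num
  simp only [h6]
  rw [← sum_smul, ← eval_finsetSum, hpoly, eval_mul, eval_C]

end

end Pool.Agent.X221.Chord
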