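import Mathlib

/-!
# Sums over colourings of a function of the kernel are polynomial
-/

namespace Pool.Agent.X221.Chord

open Finset Polynomial

lemma cast_descFactorial (M q : ℕ) :
    ((M.descFactorial q : ℕ) : ℂ) = ∏ j ∈ range q, ((M : ℂ) - j) := by
  induction q with
  | zero => simp
  | succ q ih =>
    rw [Nat.descFactorial_succ, Nat.cast_mul, prod_range_succ, ← ih, mul_comm]
    by_cases h : q ≤ M
    · rw [Nat.cast_sub h]
    · rw [Nat.descFactorial_eq_zero_iff_lt.mpr (by omega)]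
      simp

lemma desc_poly (q A : ℕ) (h : q ≤ A) : ∃ r : ℂ[X], ∀ M : ℕ, 1 ≤ M →
    ((M.descFactorial q : ℕ) : ℂ) = (M : ℂ) ^ A * r.eval (M : ℂ)⁻¹ := by
  refine ⟨X ^ (A - q) * ∏ j ∈ range q, (1 - C (j : ℂ) * X), fun M hM => ?_⟩
  have hM0 : (M : ℂ) ≠ 0 := by
    have : M ≠ 0 := by omega
    exact_mod_cast this
  rw [cast_descFactorial, eval_mul, eval_pow, eval_X, eval_prod]
  have h1 : (M : ℂ) ^ A = (M : ℂ) ^ (A - q) * (M : ℂ) ^ q := by
    rw [← pow_add, Nat.sub_add_cancel h]
  have h2 : (M : ℂ) ^ (A - q) * ((M : ℂ)⁻¹) ^ (A - q) = 1 := by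
    rw [← mul_pow, mul_inv_cancel₀ hM0, one_pow]
  have h3 : ∏ j ∈ range q, ((M : ℂ) - j) =
      (M : ℂ) ^ q * ∏ j ∈ range q, eval (M : ℂ)⁻¹ (1 - C (j : ℂ) * X) := by
    have : (M : ℂ) ^ q = ∏ j ∈ range q, (M : ℂ) := by simp
    rw [this, ← prod_mul_distrib]
    refine prod_congr rfl fun j _ => ?_
    simp only [eval_sub, eval_one, eval_mul, eval_C, eval_X]
    field_simp
  rw [h3, h1]
  linear_combination (-(M : ℂ) ^ q * ∏ j ∈ range q, eval (M : ℂ)⁻¹ (1 - C (j : ℂ) * X)) * h2

variable {α : Type} [Fintype α] [DecidableEq α]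

/-- The kernel of a colouring. -/
def kern {L : Type} [DecidableEq L] (i : α → L) : α → α → Bool := fun x y => decide (i x = i y)

lemma card_kern (κ : α → α → Bool) : (∃ q : ℕ, q ≤ Fintype.card α ∧ ∀ M : ℕ,
    (univ.filter fun i : α → Fin M => kern i = κ).card = M.descFactorial q) ∨
    ∀ M : ℕ, (univ.filter fun i : α → Fin M => kern i = κ).card = 0 := by
  classical
  by_cases h : ∃ (M : ℕ) (i : α → Fin M), kern i = κ
  · left
    obtain ⟨M₀, i₀, hi₀⟩ := h
    let s : Setoid α := Setoid.ker i₀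
    have hs : ∀ x y, s x y ↔ κ x y = true := by
      intro x y
      rw [← hi₀]
      simp [s, kern]
    refine ⟨Fintype.card (Quotient s), Fintype.card_quotient_le s, fun M => ?_⟩
    rw [← Fintype.card_fin M, ← Fintype.card_embedding_eq, Fintype.card_fin]
    rw [← Fintype.card_subtype]
    refine Fintype.card_congr ?_
    refine
      { toFun := fun i => ⟨Quotient.lift i.1 fun a b hab => ?_, ?_⟩
        invFun := fun f => ⟨fun x => f (Quotient.mk s x), ?_⟩
        left_inv := ?_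
        right_inv := ?_ }
    · have h1 : κ a b = true := (hs a b).mp hab
      have h2 := i.2
      rw [← h2] at h1
      simpa [kern] using h1
    · rintro ⟨a⟩ ⟨b⟩ hab
      have hab' : i.1 a = i.1 b := hab
      apply Quotient.sound
      refine (hs a b).mpr ?_
      rw [← i.2]
      simpa [kern] using hab'
    · ext x y
      have h1 : (f (Quotient.mk s x) = f (Quotient.mk s y)) ↔ κ x y = true := by
        rw [f.injective.eq_iff, Quotient.eq, hs]
      show decide (f (Quotient.mk s x) = f (Quotient.mk s y)) = κ x y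
      rw [Bool.eq_iff_iff, decide_eq_true_iff, h1]
    · intro i; rfl
    · intro f
      ext ⟨x⟩; rfl
  · right
    intro M
    rw [card_eq_zero, filter_eq_empty_iff]
    intro i _ hi
    exact h ⟨M, i, hi⟩

/-- Sums over colourings of a function of the kernel are polynomial. -/
theorem exists_poly (g : (α → α → Bool) → ℂ) : ∃ r : ℂ[X], ∀ M : ℕ, 1 ≤ M →
    ∑ i : α → Fin M, g (kern i) = (M : ℂ) ^ Fintype.card α * r.eval (M : ℂ)⁻¹ := by
  classical
  have h1 : ∀ κ : α → α → Bool, ∃ r : ℂ[X], ∀ M : ℕ, 1 ≤ M →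
      (((univ.filter fun i : α → Fin M => kern i = κ).card : ℕ) : ℂ) =
        (M : ℂ) ^ Fintype.card α * r.eval (M : ℂ)⁻¹ := by
    intro κ
    rcases card_kern κ with ⟨q, hq, h⟩ | h
    · obtain ⟨r, hr⟩ := desc_poly q _ hq
      exact ⟨r, fun M hM => by rw [h M, hr M hM]⟩
    · exact ⟨0, fun M _ => by rw [h M]; simp⟩
  choose r hr using h1
  refine ⟨∑ κ, C (g κ) * r κ, fun M hM => ?_⟩
  rw [← Finset.sum_fiberwise (s := univ) (g := fun i : α → Fin M => kern i)
    (f := fun i : α → Fin M => g (kern i)), eval_finsetSum, mul_sum]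
  refine sum_congr rfl fun κ _ => ?_
  rw [sum_congr rfl (g := fun _ => g κ) (fun i hi => by rw [(mem_filter.mp hi).2]),
    sum_const, nsmul_eq_mul, hr κ M hM, eval_mul, eval_C]
  ring

/-- Two polynomials which agree at all `1 / M` are equal. -/
lemma poly_ext {r r' : ℂ[X]} (h : ∀ M : ℕ, 1 ≤ M → r.eval (M : ℂ)⁻¹ = r'.eval (M : ℂ)⁻¹) :
    r = r' := by
  apply Polynomial.eq_of_infinite_eval_eq
  refine Set.Infinite.mono (s := Set.range fun n : ℕ => ((n + 1 : ℕ) : ℂ)⁻¹) ?_
    (Set.infinite_range_of_injective ?_)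
  · rintro _ ⟨n, rfl⟩
    exact h (n + 1) (by omega)
  · intro a b hab
    have := inv_injective hab
    have h2 : a + 1 = b + 1 := by exact_mod_cast this
    omega

end Pool.Agent.X221.Chord
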