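import Pool.Agent.X221.Chord.Words

/-!
# The sums over words in the Weyl algebra
-/

namespace Pool.Agent.X221.Chord

open Finset Polynomial

section Ring

variable {R : Type} [Ring R]

/-- The tokens. -/
def tok (x d : R) : Bool → Bool → R
  | false, false => x
  | false, true => -d
  | true, false => d
  | true, true => x

variable {α : Type} [DecidableEq α]

/-- The product of the tokens of a word. -/
def valW (x d : R) (i : α → Bool) (w : List (α × Bool)) : R :=
  (w.map fun p => tok x d p.2 (i p.1)).prod

omit [DecidableEq α] in
lemma valW_congr {x d : R} {i i' : α → Bool} {w : List (α × Bool)}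
    (h : ∀ y ∈ w, i y.1 = i' y.1) : valW x d i w = valW x d i' w := by
  unfold valW
  congr 1
  exact List.map_congr_left fun y hy => by rw [h y hy]

variable [Algebra ℂ R]

/-- The sum over all labels satisfies the recursion. -/
theorem recur_valW [Fintype α] {x d : R} (hd : d * x = x * d + 1) :
    Recur (fun w : List (α × Bool) => ∑ i : α → Bool, valW x d i w) 2 (-1) 1 where
  r1 c b v hv := by
    have e := sum_update (L := Bool) c (fun i : α → Bool => valW x d i ((c, b) :: (c, !b) :: v))
    have key : ∀ i : α → Bool, ∑ m, valW x d (Function.update i c m) ((c, b) :: (c, !b) :: v) =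
        (eta b * -1) • valW x d i v := by
      intro i
      have h1 : ∀ m, valW x d (Function.update i c m) ((c, b) :: (c, !b) :: v) =
          tok x d b m * tok x d (!b) m * valW x d i v := by
        intro m
        have : valW x d (Function.update i c m) v = valW x d i v :=
          valW_congr fun z hz => Function.update_of_ne (hv.fst_ne hz) _ _
        rw [← this]
        simp [valW, mul_assoc]
      simp only [h1, Fintype.sum_bool]
      rw [← add_mul]
      have h2 : tok x d b true * tok x d (!b) true + tok x d b false * tok x d (!b) false =
          (eta b * -1) • (1 : R) := by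
        cases b
        · simp only [tok, Bool.not_false, eta_false]
          rw [neg_mul, hd]
          module
        · simp only [tok, Bool.not_true, eta_true]
          rw [mul_neg, hd]
          module
      rw [h2, smul_mul_assoc, one_mul]
    simp only [key, ← Finset.smul_sum, Fintype.card_bool] at e
    rw [← e, ← Nat.cast_smul_eq_nsmul ℂ]
    norm_num
  r2 c b u t v hv := by
    have htc : t.1 ≠ c := hv.fst_ne List.mem_cons_self
    have e := sum_update (L := Bool) c (fun i : α → Bool =>
      valW x d i ((c, b) :: (u ++ t :: (c, !b) :: v)) -
        valW x d i ((c, b) :: (u ++ (c, !b) :: t :: v)))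
    have key : ∀ i : α → Bool, ∑ m, (valW x d (Function.update i c m)
        ((c, b) :: (u ++ t :: (c, !b) :: v)) - valW x d (Function.update i c m)
        ((c, b) :: (u ++ (c, !b) :: t :: v))) = (-eta b) • valW x d i (t :: (u ++ v)) := by
      intro i
      have hU : ∀ m, valW x d (Function.update i c m) u = valW x d i u := fun m =>
        valW_congr fun z hz => Function.update_of_ne
          (hv.fst_ne (List.mem_cons_of_mem _ (List.mem_append_left _ hz))) _ _
      have hV : ∀ m, valW x d (Function.update i c m) v = valW x d i v := fun m =>
        valW_congr fun z hz => Function.update_of_ne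
          (hv.fst_ne (List.mem_cons_of_mem _ (List.mem_append_right _ hz))) _ _
      have h1 : ∀ m, valW x d (Function.update i c m) ((c, b) :: (u ++ t :: (c, !b) :: v)) =
          tok x d b m * valW x d i u * tok x d t.2 (i t.1) * tok x d (!b) m * valW x d i v := by
        intro m
        rw [← hU m, ← hV m]
        simp [valW, mul_assoc, Function.update_of_ne htc]
      have h2 : ∀ m, valW x d (Function.update i c m) ((c, b) :: (u ++ (c, !b) :: t :: v)) =
          tok x d b m * valW x d i u * tok x d (!b) m * tok x d t.2 (i t.1) * valW x d i v := by
        intro m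
        rw [← hU m, ← hV m]
        simp [valW, mul_assoc, Function.update_of_ne htc]
      have h3 : valW x d i (t :: (u ++ v)) =
          tok x d t.2 (i t.1) * valW x d i u * valW x d i v := by
        simp [valW, mul_assoc]
      simp only [h1, h2, Fintype.sum_bool]
      rw [h3]
      generalize valW x d i u = U
      generalize valW x d i v = V
      generalize t.2 = b'
      generalize i t.1 = m'
      have hd' : ∀ A : R, A * d * x = A * x * d + A := fun A => by
        rw [mul_assoc, hd, mul_add, mul_one, mul_assoc]
      cases b <;> cases b' <;> cases m' <;>
      simp only [tok, Bool.not_false, Bool.not_true, eta_false, eta_true, mul_neg, neg_mul, hd',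
        add_mul, neg_neg, one_smul, neg_smul] <;> abel
    simp only [key] at e
    rw [Finset.sum_sub_distrib, ← Finset.smul_sum, Fintype.card_bool,
      ← Nat.cast_smul_eq_nsmul ℂ, smul_sub] at e
    rw [sub_eq_iff_eq_add] at e
    have e' : (2 : ℂ) • ∑ i : α → Bool, valW x d i ((c, b) :: (u ++ t :: (c, !b) :: v)) =
        -eta b • ∑ i : α → Bool, valW x d i (t :: (u ++ v)) +
        (2 : ℂ) • ∑ i : α → Bool, valW x d i ((c, b) :: (u ++ (c, !b) :: t :: v)) := by
      exact_mod_cast e
    rw [e', mul_one, neg_smul]
    abel

end Ring

/-- Endomorphisms of the space of polynomials in one variable. -/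
abbrev W : Type := Module.End ℂ ℂ[X]

/-- Multiplication by the variable. -/
noncomputable def xop : W := LinearMap.mulLeft ℂ (X : ℂ[X])

/-- Derivation. -/
noncomputable def dop : W := Polynomial.derivative

lemma dop_mul_xop : dop * xop = xop * dop + 1 := by
  apply LinearMap.ext
  intro p
  simp only [xop, dop, Module.End.mul_apply, LinearMap.mulLeft_apply, derivative_mul,
    derivative_X, one_mul, LinearMap.add_apply, Module.End.one_apply]
  ring

end Pool.Agent.X221.Chord
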