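import Mathlib

/-!
# Signed words, and the recursion shared by the Weyl algebra sums and the coloured sign sums
-/

namespace Pool.Agent.X221.Chord

open Finset

/-- The sign of a Boolean. -/
def eta (b : Bool) : ℂ := if b then -1 else 1

@[simp] lemma eta_false : eta false = 1 := rfl
@[simp] lemma eta_true : eta true = -1 := rfl

lemma eta_not (b : Bool) : eta (!b) = -eta b := by cases b <;> simp

variable {α : Type} [DecidableEq α]

/-- Valid words: every signed letter occurs at most once, and with its partner. -/
def Valid (w : List (α × Bool)) : Prop := w.Nodup ∧ ∀ c b, (c, b) ∈ w → (c, !b) ∈ w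

omit [DecidableEq α] in
lemma Valid.perm {w w' : List (α × Bool)} (h : w.Perm w') (hw : Valid w) : Valid w' :=
  ⟨h.nodup_iff.mp hw.1, fun c b hb => h.mem_iff.mp (hw.2 c b (h.mem_iff.mpr hb))⟩

omit [DecidableEq α] in
lemma Valid.tail2 {c : α} {b : Bool} {l : List (α × Bool)} (h : Valid ((c, b) :: (c, !b) :: l)) :
    Valid l := by
  obtain ⟨h1, h2⟩ := h
  rw [List.nodup_cons, List.nodup_cons] at h1
  refine ⟨h1.2.2, fun d b' hd => ?_⟩
  have h3 := h2 d b' (List.mem_cons_of_mem _ (List.mem_cons_of_mem _ hd))
  rw [List.mem_cons, List.mem_cons] at h3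
  rcases h3 with h3 | h3 | h3
  · exfalso
    rw [Prod.mk.injEq] at h3
    obtain ⟨rfl, h3⟩ := h3
    have : b' = !b := by rw [← h3]; simp
    subst this
    exact h1.2.1 hd
  · exfalso
    rw [Prod.mk.injEq] at h3
    obtain ⟨rfl, h3⟩ := h3
    have : b' = b := by
      have := congrArg (fun z => !z) h3
      simpa using this
    subst this
    exact h1.1 (List.mem_cons_of_mem _ hd)
  · exact h3

omit [DecidableEq α] in
lemma Valid.fst_ne {c : α} {b : Bool} {l : List (α × Bool)} (h : Valid ((c, b) :: (c, !b) :: l))
    {z : α × Bool} (hz : z ∈ l) : z.1 ≠ c := by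
  obtain ⟨h1, -⟩ := h
  rw [List.nodup_cons, List.nodup_cons] at h1
  rintro rfl
  obtain ⟨d, b'⟩ := z
  by_cases hb : b' = b
  · subst hb; exact h1.1 (List.mem_cons_of_mem _ hz)
  · have : b' = !b := by cases b <;> cases b' <;> simp_all
    subst this; exact h1.2.1 hz

/-- The recursion. -/
structure Recur {R : Type} [Ring R] [Algebra ℂ R] (S : List (α × Bool) → R) (L δ κ : ℂ) :
    Prop where
  r1 : ∀ c b v, Valid ((c, b) :: (c, !b) :: v) →
    L • S ((c, b) :: (c, !b) :: v) = (eta b * δ) • S v
  r2 : ∀ c b u t v, Valid ((c, b) :: (c, !b) :: t :: (u ++ v)) →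
    L • S ((c, b) :: (u ++ t :: (c, !b) :: v)) =
      L • S ((c, b) :: (u ++ (c, !b) :: t :: v)) - (eta b * κ) • S (t :: (u ++ v))

open Polynomial in
omit [DecidableEq α] in
/-- Comparison of the two solutions of the recursion. -/
theorem recursion_compare {R : Type} [Ring R] [Algebra ℂ R] (A : ℕ)
    (SW : List (α × Bool) → R) (SM : ℕ → List (α × Bool) → ℂ)
    (hW : Recur SW 2 (-1) 1) (hM : ∀ M : ℕ, 1 ≤ M → Recur (SM M) M M 2)
    (hW0 : SW [] = (2 ^ A : ℂ) • 1) (hM0 : ∀ M : ℕ, 1 ≤ M → SM M [] = (M : ℂ) ^ A)
    (k : ℕ) (w : List (α × Bool)) (hw : Valid w) (hk : w.length = 2 * k) :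
    ∃ r : ℂ[X], (∀ M : ℕ, 1 ≤ M → SM M w = (M : ℂ) ^ A * r.eval (M : ℂ)⁻¹) ∧
      SW w = (2 ^ A * (-1 / 2 : ℂ) ^ k * r.eval (-1 / 2)) • 1 := by
  induction k generalizing w with
  | zero =>
    have : w = [] := List.length_eq_zero_iff.mp (by simpa using hk)
    subst this
    exact ⟨1, fun M hM' => by simp [hM0 M hM'], by simp [hW0]⟩
  | succ k ih =>
    cases w with
    | nil => simp at hk
    | cons x w =>
    obtain ⟨c, b⟩ := x
    have hmem : (c, !b) ∈ w := by
      have := hw.2 c b (List.mem_cons_self)
      rw [List.mem_cons] at this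
      rcases this with h | h
      · rw [Prod.mk.injEq] at h
        exact absurd h.2 (by simp)
      · exact h
    obtain ⟨u, v, rfl⟩ := List.append_of_mem hmem
    induction u using List.reverseRecOn generalizing v with
    | nil =>
      simp only [List.nil_append] at hw hk ⊢
      obtain ⟨r, hr1, hr2⟩ := ih v hw.tail2 (by simp at hk; omega)
      refine ⟨C (eta b) * r, fun M hM' => ?_, ?_⟩
      · have h1 := (hM M hM').r1 c b v hw
        have hM0' : (M : ℂ) ≠ 0 := by
          have : M ≠ 0 := by omega
          exact_mod_cast this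
        rw [smul_eq_mul, smul_eq_mul, hr1 M hM'] at h1
        rw [eval_mul, eval_C]
        apply mul_left_cancel₀ hM0'
        rw [h1]; ring
      · have h1 := hW.r1 c b v hw
        rw [hr2] at h1
        have h2 : SW ((c, b) :: (c, !b) :: v) = (2 : ℂ)⁻¹ • ((2 : ℂ) •
            SW ((c, b) :: (c, !b) :: v)) := by
          rw [smul_smul, inv_mul_cancel₀ (by norm_num : (2 : ℂ) ≠ 0), one_smul]
        rw [h2, h1, smul_smul, smul_smul, eval_mul, eval_C]
        congr 1
        rw [pow_succ]
        ring
    | append_singleton u t ihu =>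
      have hperm : ((c, b) :: (u ++ [t] ++ (c, !b) :: v)).Perm
          ((c, b) :: (c, !b) :: t :: (u ++ v)) := by
        refine List.Perm.cons _ ?_
        have h1 : (u ++ [t] ++ (c, !b) :: v).Perm ((c, !b) :: (u ++ [t] ++ v)) :=
          List.perm_middle
        refine h1.trans (List.Perm.cons _ ?_)
        rw [List.append_assoc]
        exact List.perm_middle
      have hv2 : Valid ((c, b) :: (c, !b) :: t :: (u ++ v)) := hw.perm hperm
      have hperm2 : ((c, b) :: (c, !b) :: t :: (u ++ v)).Perm
          ((c, b) :: (u ++ (c, !b) :: t :: v)) := by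
        refine List.Perm.cons _ ?_
        have h1 : (u ++ (c, !b) :: t :: v).Perm ((c, !b) :: (u ++ t :: v)) := List.perm_middle
        refine List.Perm.symm (h1.trans (List.Perm.cons _ List.perm_middle))
      have hv3 : Valid ((c, b) :: (u ++ (c, !b) :: t :: v)) := hv2.perm hperm2
      obtain ⟨r1, h11, h12⟩ := ihu (t :: v) hv3 (by simp at hk ⊢; omega) (by simp)
      obtain ⟨r2, h21, h22⟩ := ih (t :: (u ++ v)) hv2.tail2 (by simp at hk ⊢; omega)
      have e : (c, b) :: (u ++ [t] ++ (c, !b) :: v) = (c, b) :: (u ++ t :: (c, !b) :: v) := by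
        simp
      rw [e]
      refine ⟨r1 - C (eta b * 2) * X * r2, fun M hM' => ?_, ?_⟩
      · have h1 := (hM M hM').r2 c b u t v hv2
        have hM0' : (M : ℂ) ≠ 0 := by
          have : M ≠ 0 := by omega
          exact_mod_cast this
        rw [smul_eq_mul, smul_eq_mul, smul_eq_mul, h11 M hM', h21 M hM'] at h1
        rw [eval_sub, eval_mul, eval_mul, eval_C, eval_X]
        apply mul_left_cancel₀ hM0'
        rw [h1]
        field_simp
      · have h1 := hW.r2 c b u t v hv2
        rw [h12, h22] at h1
        have h2 : SW ((c, b) :: (u ++ t :: (c, !b) :: v)) = (2 : ℂ)⁻¹ • ((2 : ℂ) •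
            SW ((c, b) :: (u ++ t :: (c, !b) :: v))) := by
          rw [smul_smul, inv_mul_cancel₀ (by norm_num : (2 : ℂ) ≠ 0), one_smul]
        rw [h2, h1]
        simp only [smul_sub, smul_smul]
        rw [← sub_smul, eval_sub, eval_mul, eval_mul, eval_C, eval_X]
        congr 1
        rw [pow_succ]
        ring

/-! ### Averaging over one label -/

lemma sum_update {L R : Type} [Fintype L] [Fintype α] [AddCommMonoid R] (c : α)
    (F : (α → L) → R) :
    Fintype.card L • ∑ i, F i = ∑ i, ∑ m, F (Function.update i c m) := by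
  rw [← (Equiv.funSplitAt c L).symm.sum_comp F,
    ← (Equiv.funSplitAt c L).symm.sum_comp (fun i => ∑ m, F (Function.update i c m))]
  rw [Fintype.sum_prod_type, Fintype.sum_prod_type]
  have h : ∀ (x : L) (j : { j // j ≠ c } → L) (m : L),
      Function.update ((Equiv.funSplitAt c L).symm (x, j)) c m =
        (Equiv.funSplitAt c L).symm (m, j) := by
    intro x j m
    ext d
    by_cases hd : d = c
    · subst hd; simp [Equiv.funSplitAt, Equiv.piSplitAt]
    · simp [Equiv.funSplitAt, Equiv.piSplitAt, hd]
  simp only [h]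
  rw [Finset.sum_const, Finset.card_univ]
  congr 1
  rw [Finset.sum_comm]

/-! ### The coloured sign sums -/

section Sign

variable (ord : α → ℕ)

/-- The sign of a pair of signed letters. -/
def sg (x y : α × Bool) : ℂ :=
  if x.1 = y.1 then eta x.2 else if ord x.1 < ord y.1 then 1 else -1

/-- The sign of a pair, if the colours agree. -/
def tau {L : Type} [DecidableEq L] (i : α → L) (x y : α × Bool) : ℂ :=
  if i x.1 = i y.1 then sg ord x y else 1

/-- The sign of a coloured word. -/
def sgnW {L : Type} [DecidableEq L] (i : α → L) : List (α × Bool) → ℂ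
  | [] => 1
  | x :: l => (l.map (tau ord i x)).prod * sgnW i l

variable {ord}

lemma sg_swap (hord : Function.Injective ord) {x y : α × Bool} (h : x ≠ y) :
    sg ord y x = -sg ord x y := by
  unfold sg
  by_cases h1 : x.1 = y.1
  · rw [if_pos h1, if_pos h1.symm]
    have : y.2 = !x.2 := by
      have : x.2 ≠ y.2 := fun h2 => h (Prod.ext h1 h2)
      revert this
      cases x.2 <;> cases y.2 <;> simp
    rw [this, eta_not]
  · rw [if_neg h1, if_neg (Ne.symm h1)]
    have h2 : ord x.1 ≠ ord y.1 := fun h2 => h1 (hord h2)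
    rcases Nat.lt_or_gt_of_ne h2 with h3 | h3
    · rw [if_pos h3, if_neg (Nat.lt_asymm h3)]
    · rw [if_neg (Nat.lt_asymm h3), if_pos h3]; simp

lemma sg_sq (x y : α × Bool) : sg ord x y * sg ord x y = 1 := by
  unfold sg
  split_ifs <;> cases x.2 <;> simp

lemma sg_partner {c : α} {b : Bool} {z : α × Bool} (hz : z.1 ≠ c) :
    sg ord (c, !b) z = sg ord (c, b) z := by
  unfold sg
  rw [if_neg (Ne.symm hz), if_neg (Ne.symm hz)]

lemma sg_partner' {c : α} {b : Bool} {z : α × Bool} (hz : z.1 ≠ c) :
    sg ord z (c, !b) = sg ord z (c, b) := by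
  unfold sg
  simp only [if_neg hz]

variable {L : Type} [DecidableEq L]

lemma sgnW_extract (i : α → L) (u : List (α × Bool)) (y : α × Bool) (v : List (α × Bool)) :
    sgnW ord i (u ++ y :: v) =
      (u.map fun z => tau ord i z y).prod * (v.map (tau ord i y)).prod * sgnW ord i (u ++ v) := by
  induction u with
  | nil => simp [sgnW]
  | cons z u ih =>
    simp only [List.cons_append, sgnW, ih, List.map_cons, List.prod_cons, List.map_append,
      List.prod_append]
    ring

lemma sgnW_congr {i i' : α → L} {w : List (α × Bool)} (h : ∀ x ∈ w, i x.1 = i' x.1) :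
    sgnW ord i w = sgnW ord i' w := by
  induction w with
  | nil => rfl
  | cons x l ih =>
    simp only [sgnW]
    rw [ih fun y hy => h y (List.mem_cons_of_mem _ hy)]
    congr 2
    refine List.map_congr_left fun y hy => ?_
    unfold tau
    rw [h x List.mem_cons_self, h y (List.mem_cons_of_mem _ hy)]

/-- Sign comparison, different colours. -/
lemma sgnW_r2_ne {i : α → L} {c : α} {b : Bool} {u v : List (α × Bool)} {t : α × Bool}
    (h : i c ≠ i t.1) :
    sgnW ord i ((c, b) :: (u ++ t :: (c, !b) :: v)) =
      sgnW ord i ((c, b) :: (u ++ (c, !b) :: t :: v)) := by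
  have h1 : tau ord i t (c, !b) = 1 := if_neg (Ne.symm h)
  have h2 : tau ord i (c, !b) t = 1 := if_neg h
  simp only [sgnW]
  congr 1
  · rw [List.map_append, List.map_append, List.map_cons, List.map_cons, List.map_cons,
      List.map_cons]
    simp only [List.prod_append, List.prod_cons]
    ring
  · rw [sgnW_extract, sgnW_extract i u (c, !b) (t :: v), sgnW_extract i u (c, !b) v,
      sgnW_extract i u t v]
    simp only [List.map_cons, List.prod_cons, h1, h2]
    ring

/-- Sign comparison, equal colours. -/
lemma sgnW_r2_eq (hord : Function.Injective ord) {i : α → L} {c : α} {b : Bool}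
    {u v : List (α × Bool)} {t : α × Bool} (hv : Valid ((c, b) :: (c, !b) :: t :: (u ++ v)))
    (h : i c = i t.1) :
    sgnW ord i ((c, b) :: (u ++ t :: (c, !b) :: v)) =
      -eta b * sgnW ord i (t :: (u ++ v)) ∧
    sgnW ord i ((c, b) :: (u ++ (c, !b) :: t :: v)) =
      eta b * sgnW ord i (t :: (u ++ v)) := by
  have hne : ∀ z ∈ t :: (u ++ v), z.1 ≠ c := fun z hz => hv.fst_ne hz
  have htc : t.1 ≠ c := hne t List.mem_cons_self
  have hnd : (t :: (u ++ v)).Nodup := hv.tail2.1
  have ht : ∀ z ∈ u ++ v, z ≠ t := fun z hz h1 => by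
    subst h1; exact (List.nodup_cons.mp hnd).1 hz
  -- the three pointwise facts
  have f1 : ∀ z ∈ u, tau ord i (c, b) z * tau ord i z (c, !b) * tau ord i z t =
      tau ord i t z := by
    intro z hz
    have hz1 : z.1 ≠ c := hne z (List.mem_cons_of_mem _ (List.mem_append_left _ hz))
    have hz2 : z ≠ t := ht z (List.mem_append_left _ hz)
    unfold tau
    by_cases hi : i z.1 = i t.1
    · have hi' : i c = i z.1 := h.trans hi.symm
      have e1 : i (c, b).1 = i z.1 := hi'
      have e2 : i z.1 = i (c, !b).1 := hi'.symm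
      rw [if_pos e1, if_pos e2, if_pos hi, if_pos hi.symm, sg_partner' hz1,
        sg_swap hord (x := (c, b)) (y := z) (fun h3 => hz1 (by rw [← h3])),
        sg_swap hord (x := z) (y := t) hz2]
      have := sg_sq (ord := ord) (c, b) z
      linear_combination (-sg ord z t) * this
    · have hi' : ¬ i c = i z.1 := fun h3 => hi (h3.symm.trans h)
      have e1 : ¬ i (c, b).1 = i z.1 := hi'
      have e2 : ¬ i z.1 = i (c, !b).1 := fun h3 => hi' h3.symm
      rw [if_neg e1, if_neg e2, if_neg hi, if_neg (fun h3 => hi h3.symm)]; ring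
  have f2 : ∀ z ∈ v, tau ord i (c, b) z * tau ord i (c, !b) z = 1 := by
    intro z hz
    have hz1 : z.1 ≠ c := hne z (List.mem_cons_of_mem _ (List.mem_append_right _ hz))
    unfold tau
    by_cases hi : i c = i z.1
    · have e1 : i (c, b).1 = i z.1 := hi
      have e2 : i (c, !b).1 = i z.1 := hi
      rw [if_pos e1, if_pos e2, sg_partner hz1, sg_sq]
    · have e1 : ¬ i (c, b).1 = i z.1 := hi
      have e2 : ¬ i (c, !b).1 = i z.1 := hi
      rw [if_neg e1, if_neg e2, one_mul]
  have f3 : tau ord i (c, b) (c, !b) = eta b := by simp [tau, sg]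
  have f4 : tau ord i (c, b) t * tau ord i t (c, !b) = -1 := by
    have e1 : i (c, b).1 = i t.1 := h
    have e2 : i t.1 = i (c, !b).1 := h.symm
    unfold tau
    rw [if_pos e1, if_pos e2, sg_partner' htc,
      sg_swap hord (x := (c, b)) (y := t) (fun h3 => htc (by rw [← h3]))]
    have := sg_sq (ord := ord) (c, b) t
    linear_combination (-1 : ℂ) * this
  have f5 : tau ord i (c, b) t * tau ord i (c, !b) t = 1 := by
    have e1 : i (c, b).1 = i t.1 := h
    have e2 : i (c, !b).1 = i t.1 := h
    unfold tau
    rw [if_pos e1, if_pos e2, sg_partner htc, sg_sq]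
  -- products
  have p1 : (u.map (tau ord i (c, b))).prod * (u.map fun z => tau ord i z (c, !b)).prod *
      (u.map fun z => tau ord i z t).prod = (u.map (tau ord i t)).prod := by
    rw [← List.prod_map_mul, ← List.prod_map_mul]
    exact congrArg List.prod (List.map_congr_left f1)
  have p2 : (v.map (tau ord i (c, b))).prod * (v.map (tau ord i (c, !b))).prod = 1 := by
    rw [← List.prod_map_mul, List.map_congr_left f2]
    simp
  constructor
  · simp only [sgnW]
    rw [show u ++ t :: (c, !b) :: v = (u ++ [t]) ++ (c, !b) :: v by simp,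
      sgnW_extract i (u ++ [t]) (c, !b) v, show (u ++ [t]) ++ v = u ++ t :: v by simp,
      sgnW_extract i u t v]
    simp only [List.map_append, List.map_cons, List.map_nil, List.prod_append, List.prod_cons,
      List.prod_nil, mul_one, f3]
    rw [← p1]
    linear_combination (eta b * (u.map (tau ord i (c, b))).prod *
      (u.map fun z => tau ord i z (c, !b)).prod * (u.map fun z => tau ord i z t).prod *
      (v.map (tau ord i t)).prod * sgnW ord i (u ++ v)) *
      (f4 * (v.map (tau ord i (c, b))).prod * (v.map (tau ord i (c, !b))).prod - p2)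
  · simp only [sgnW]
    rw [sgnW_extract i u (c, !b) (t :: v), sgnW_extract i u t v]
    simp only [List.map_append, List.map_cons, List.prod_append, List.prod_cons, f3]
    rw [← p1]
    linear_combination (eta b * (u.map (tau ord i (c, b))).prod *
      (u.map fun z => tau ord i z (c, !b)).prod * (u.map fun z => tau ord i z t).prod *
      (v.map (tau ord i t)).prod * sgnW ord i (u ++ v)) *
      (f5 * (v.map (tau ord i (c, b))).prod * (v.map (tau ord i (c, !b))).prod + p2)

end Sign

/-- The sum of the signs over all colourings satisfies the recursion. -/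
theorem recur_sgnW [Fintype α] {ord : α → ℕ} (hord : Function.Injective ord) (M : ℕ) :
    Recur (fun w : List (α × Bool) => ∑ i : α → Fin M, sgnW ord i w) M M 2 where
  r1 c b v hv := by
    have key : ∀ i : α → Fin M, sgnW ord i ((c, b) :: (c, !b) :: v) = eta b * sgnW ord i v := by
      intro i
      simp only [sgnW, List.map_cons, List.prod_cons]
      have f2 : ∀ z ∈ v, tau ord i (c, b) z * tau ord i (c, !b) z = 1 := by
        intro z hz
        have hz1 : z.1 ≠ c := hv.fst_ne hz
        unfold tau
        by_cases hi : i c = i z.1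
        · have e1 : i (c, b).1 = i z.1 := hi
          have e2 : i (c, !b).1 = i z.1 := hi
          rw [if_pos e1, if_pos e2, sg_partner hz1, sg_sq]
        · have e1 : ¬ i (c, b).1 = i z.1 := hi
          have e2 : ¬ i (c, !b).1 = i z.1 := hi
          rw [if_neg e1, if_neg e2, one_mul]
      have p2 : (v.map (tau ord i (c, b))).prod * (v.map (tau ord i (c, !b))).prod = 1 := by
        rw [← List.prod_map_mul, List.map_congr_left f2]
        simp
      have f3 : tau ord i (c, b) (c, !b) = eta b := by simp [tau, sg]
      rw [f3]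
      linear_combination (eta b * sgnW ord i v) * p2
    simp only [key, ← Finset.mul_sum, smul_eq_mul]
    ring
  r2 c b u t v hv := by
    have htc : t.1 ≠ c := hv.fst_ne List.mem_cons_self
    have key : ∀ (i : α → Fin M), ∑ m, (sgnW ord (Function.update i c m)
        ((c, b) :: (u ++ t :: (c, !b) :: v)) - sgnW ord (Function.update i c m)
        ((c, b) :: (u ++ (c, !b) :: t :: v))) = -(eta b * 2) * sgnW ord i (t :: (u ++ v)) := by
      intro i
      rw [Finset.sum_eq_single (i t.1)]
      · have h1 : Function.update i c (i t.1) c = Function.update i c (i t.1) t.1 := by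
          rw [Function.update_self, Function.update_of_ne htc]
        obtain ⟨h2, h3⟩ := sgnW_r2_eq hord hv h1
        rw [h2, h3]
        have h4 : sgnW ord (Function.update i c (i t.1)) (t :: (u ++ v)) =
            sgnW ord i (t :: (u ++ v)) :=
          sgnW_congr fun z hz => Function.update_of_ne (hv.fst_ne hz) _ _
        rw [h4]; ring
      · intro m _ hm
        have h1 : Function.update i c m c ≠ Function.update i c m t.1 := by
          rw [Function.update_self, Function.update_of_ne htc]; exact hm
        rw [sgnW_r2_ne h1, sub_self]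
      · intro h; exact absurd (Finset.mem_univ _) h
    have e := sum_update (L := Fin M) c (fun i => sgnW ord i
        ((c, b) :: (u ++ t :: (c, !b) :: v)) - sgnW ord i ((c, b) :: (u ++ (c, !b) :: t :: v)))
    simp only [key] at e
    rw [Finset.sum_sub_distrib, ← Finset.mul_sum, Fintype.card_fin, nsmul_eq_mul] at e
    simp only [smul_eq_mul]
    linear_combination e

end Pool.Agent.X221.Chord
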